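import Pool.Agent.H15.Defect.Arc

/-!
# A subexponential bound for the smoothability defect: statements of the rows
-/

open Module

namespace Pool.Agent.H15.UB

open Pool.Agent.H12.Defect Pool.Agent.H15.Defect

universe u

/-- dimension over `k` of a subspace -/
noncomputable abbrev fr (k : Type u) {B : Type u} [Field k] [CommRing B] [Algebra k B]
    (U : Submodule k B) : ℕ := finrank k U

/-- dimension over `k` of an ideal -/
noncomputable abbrev fi (k : Type u) {A : Type u} [Field k] [CommRing A] [Algebra k A]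
    (I : Ideal A) : ℕ := finrank k (I.restrictScalars k)

/-- Monomials: if the algebra `A` is generated by `x` and all monomials with exponents outside the
finite lower set `D` vanish, then `A` has a smoothable cover of degree at most `|D|`. -/
def T_MONO : Prop := ∀ (k : Type u) [Field k] [Infinite k] (A : Type u) [CommRing A] [Algebra k A]
    (N : ℕ) (x : Fin N → A) (D : Finset (Fin N → ℕ)),
    Algebra.adjoin k (Set.range x) = ⊤ → (∀ β ∈ D, ∀ γ : Fin N → ℕ, γ ≤ β → γ ∈ D) →
    (∀ β : Fin N → ℕ, β ∉ D → ∏ i, x i ^ β i = 0) → Dle k A D.card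

/-- Linear independence persists along a polynomial curve. -/
def T_PERS : Prop := ∀ (k : Type u) [Field k] (B : Type u) [CommRing B] [Algebra k B]
    [Module.Finite k B] (a : ℕ) (w : Fin a → Polynomial B) (t₀ : k),
    LinearIndependent k (fun i => (w i).eval (algebraMap k B t₀)) →
    {t : k | ¬ LinearIndependent k (fun i => (w i).eval (algebraMap k B t))}.Finite

/-- The local step of the theorem of Eakin and Sathaye. -/
def T_LOC : Prop := ∀ (k : Type u) [Field k] [Infinite k] (B : Type u) [CommRing B] [Algebra k B]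
    [Module.Finite k B] (V U : Submodule k B) (r : ℕ),
    (∀ x ∈ V, fr k (Submodule.span k {x} * (V * U)) ≤ r) →
    (∃ x ∈ V, ∃ y ∈ V, r ≤ fr k (Submodule.span k {x * y} * U)) →
    fr k (V * (V * U)) ≤ r

/-- The theorem of Eakin and Sathaye for one generator. -/
def T_ES : Prop := ∀ (k : Type u) [Field k] [Infinite k] (B : Type u) [CommRing B] [Algebra k B]
    [Module.Finite k B] (V : Submodule k B) (s : ℕ), 1 ≤ s → fr k (V ^ s) ≤ s →
    ∃ x ∈ V, V ^ s ≤ Submodule.span k {x} * V ^ (s - 1)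

/-- The same in a local algebra. -/
def T_RED : Prop := ∀ (k : Type u) [Field k] [Infinite k] (A : Type u) [CommRing A] [Algebra k A]
    [Module.Finite k A] [IsLocalRing A] (s : ℕ), 1 ≤ s →
    fi k (IsLocalRing.maximalIdeal A ^ s) ≤ fi k (IsLocalRing.maximalIdeal A ^ (s + 1)) + s →
    ∃ x ∈ IsLocalRing.maximalIdeal A, IsLocalRing.maximalIdeal A ^ (s + 1) =
      Ideal.span {x} * IsLocalRing.maximalIdeal A ^ s

/-- Duality: few generators are not killed by the power `m ^ s`. -/
def T_GORN : Prop := ∀ (k : Type u) [Field k] [IsAlgClosed k] (A : Type u) [CommRing A]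
    [Algebra k A] [Module.Finite k A] [IsLocalRing A] (f : A →ₗ[k] k) (s h : ℕ) (x : A),
    (∀ a : A, a ≠ 0 → ∃ b : A, f (a * b) ≠ 0) → x ∈ IsLocalRing.maximalIdeal A →
    IsLocalRing.maximalIdeal A ^ (s + 1) = Ideal.span {x} * IsLocalRing.maximalIdeal A ^ s →
    fi k (IsLocalRing.maximalIdeal A ^ s) ≤ fi k (IsLocalRing.maximalIdeal A ^ (s + 1)) + h →
    finrank k A ≤ fi k ((IsLocalRing.maximalIdeal A ^ s).annihilator ⊔
      IsLocalRing.maximalIdeal A ^ 2) + h + 1

/-- Choice of the generators. -/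
def T_GEN : Prop := ∀ (k : Type u) [Field k] [IsAlgClosed k] (A : Type u) [CommRing A]
    [Algebra k A] [Module.Finite k A] [IsLocalRing A] (s h : ℕ),
    finrank k A ≤ fi k ((IsLocalRing.maximalIdeal A ^ s).annihilator ⊔
      IsLocalRing.maximalIdeal A ^ 2) + h + 1 →
    ∃ (N : ℕ) (x : Fin N → A), N + 1 ≤ finrank k A ∧ Algebra.adjoin k (Set.range x) = ⊤ ∧
      (∀ i, x i ∈ IsLocalRing.maximalIdeal A) ∧
      (∀ i : Fin N, h ≤ (i : ℕ) → x i ∈ (IsLocalRing.maximalIdeal A ^ s).annihilator)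

/-- The number of exponents. -/
def T_CNT : Prop := ∀ (N s h d r : ℕ), N + 1 ≤ d → 1 ≤ s → s ≤ r → h ≤ s →
    ∃ D : Finset (Fin N → ℕ), D.card ≤ 2 * d ^ r ∧
      ∀ β : Fin N → ℕ, β ∈ D ↔ (∑ i, β i ≤ s ∨ (∑ i, β i < d ∧ ∀ i : Fin N, h ≤ (i : ℕ) → β i = 0))

/-- The Hilbert function drops below the diagonal early. -/
def T_HIL : Prop := ∀ (H : ℕ → ℕ) (d r : ℕ), (∀ s, H (s + 1) ≤ H s) → H 0 = d →
    (∃ c, H c = 0) → H 1 + 1 ≤ d → 2 * d < (r + 1) * (r + 2) →
    ∃ s, 1 ≤ s ∧ s ≤ r ∧ H s ≤ H (s + 1) + s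

/-- Local Gorenstein algebras. -/
def T_LG : Prop := ∀ (k : Type u) [Field k] [IsAlgClosed k] (A : Type u) [CommRing A]
    [Algebra k A] [Module.Finite k A] [IsLocalRing A] (f : A →ₗ[k] k) (r : ℕ),
    (∀ a : A, a ≠ 0 → ∃ b : A, f (a * b) ≠ 0) →
    2 * finrank k A < (r + 1) * (r + 2) → Dle k A (2 * finrank k A ^ r)

/-- Local algebras. -/
def T_LA : Prop := ∀ (k : Type u) [Field k] [IsAlgClosed k] (A : Type u) [CommRing A]
    [Algebra k A] [Module.Finite k A] [IsLocalRing A] (r : ℕ),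
    2 * finrank k A < (r + 1) * (r + 2) → Dle k A (2 * finrank k A ^ (r + 1))

/-- All algebras. -/
def T_ALL : Prop := ∀ (k : Type u) [Field k] [IsAlgClosed k] (A : Type u) [CommRing A]
    [Algebra k A] [Module.Finite k A] (r : ℕ),
    2 * finrank k A < (r + 1) * (r + 2) → Dle k A (2 * finrank k A ^ (r + 1))

end Pool.Agent.H15.UB
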